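import Pool.Agent.Lib.P685530.Max

/-!
# `M(k) ≤ 29` for `k ≡ 4 (mod 8)`, and `M(k) ≤ 21` if moreover `5 ∤ k`

`M(k)` is the largest number of consecutive positive integers all with exactly `k` divisors.
The known general bound is `2 ^ p - 1`, where `p` is the least prime not dividing `k`: for `k`
divisible by `3` it is at least `31`, so the theorem improves it for every `k ≡ 12 (mod 24)`.
-/

set_option autoImplicit false

namespace Pool.Agent.Results.MP_685530_nt.FourModEight

open Pool.Agent.Lib.P685530

/-- The largest length `M` of a run of consecutive integers with exactly `k` divisors exists and is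
at most `29` if `k ≡ 4 (mod 8)`; it is at most `21` if moreover `5` does not divide `k`. -/
theorem result (k : ℕ) (hk : k % 8 = 4) :
    ∃ M, IsGreatest {L | ∃ n, Run k n L} M ∧ M ≤ 29 ∧ (¬ 5 ∣ k → M ≤ 21) := by
  obtain ⟨M, hM, hM29⟩ := exists_max (k := k) (B := 29) fun n L h => run_le_29 hk h
  refine ⟨M, hM, hM29, fun h5 => ?_⟩
  obtain ⟨n, hn⟩ := hM.1
  exact run_le_21 hk h5 hn

end Pool.Agent.Results.MP_685530_nt.FourModEight
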