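import Pool.Agent.Lib.P685530.Uniform

/-!
# `M(k) ≤ 143` unless `5040` divides `k`

`M(k)` is the largest number of consecutive positive integers all with exactly `k` divisors. The
known bound is `M(k) ≤ 2 ^ p - 1` for every prime `p` not dividing `k`. It is replaced by a bound
from every integer `N` whose number of divisors does not divide `k`, or divides it with an odd
quotient.
-/

set_option autoImplicit false

namespace Pool.Agent.Results.MP_685530_nt.NonDivisors

open Pool.Agent.Lib.P685530

/-- The largest length `M` of a run of consecutive positive integers with exactly `k` divisors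
exists, and `M ≤ 143` if `5040` does not divide `k`. More generally let `N ≥ 1` have `d` divisors
and `ω` prime factors: if `d` does not divide `k`, then `M < 2 ^ ω * N`; if `6` divides `N`, and
`d` divides `k` with an odd quotient, then `M < 3 * 2 ^ (ω - 1) * N`. -/
theorem result (k : ℕ) (hk : 0 < k) :
    ∃ M, IsGreatest {L | ∃ n, Run k n L} M ∧ (¬ 5040 ∣ k → M ≤ 143) ∧
      ∀ N : ℕ, N ≠ 0 →
        (¬ N.divisors.card ∣ k → M < 2 ^ N.primeFactors.card * N) ∧
        (6 ∣ N → N.divisors.card ∣ k → Odd (k / N.divisors.card) →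
          M < 3 * 2 ^ (N.primeFactors.card - 1) * N) := by
  obtain ⟨M, hM, -⟩ := exists_max (k := k) (B := 2 ^ (2 ^ k).primeFactors.card * 2 ^ k)
    fun n L h => (run_lt_of_not_dvd (pow_ne_zero k two_ne_zero) (exists_card_not_dvd hk) h).le
  obtain ⟨n, hn⟩ := hM.1
  have h36 : (36 : ℕ).divisors.card = 9 := by decide
  have h24 : (24 : ℕ).divisors.card = 8 := by decide
  have hp36 : (36 : ℕ).primeFactors.card = 2 := by
    rw [show (36 : ℕ) = 2 ^ 2 * 3 ^ 2 by norm_num, Nat.primeFactors_mul (by norm_num) (by norm_num),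
      Nat.primeFactors_prime_pow (by norm_num) Nat.prime_two,
      Nat.primeFactors_prime_pow (by norm_num) Nat.prime_three]
    rfl
  have hp24 : (24 : ℕ).primeFactors.card = 2 := by
    rw [show (24 : ℕ) = 2 ^ 3 * 3 ^ 1 by norm_num, Nat.primeFactors_mul (by norm_num) (by norm_num),
      Nat.primeFactors_prime_pow (by norm_num) Nat.prime_two,
      Nat.primeFactors_prime_pow (by norm_num) Nat.prime_three]
    rfl
  have h16' : (2 ^ 4 : ℕ).divisors.card = 5 := by decide
  have h64' : (2 ^ 6 : ℕ).divisors.card = 7 := by decide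
  have hp16 : (2 ^ 4 : ℕ).primeFactors.card = 1 := by
    rw [Nat.primeFactors_prime_pow (by norm_num) Nat.prime_two]
    rfl
  have hp64 : (2 ^ 6 : ℕ).primeFactors.card = 1 := by
    rw [Nat.primeFactors_prime_pow (by norm_num) Nat.prime_two]
    rfl
  refine ⟨M, hM, fun hk5040 => ?_, fun N hN => ⟨fun hd => run_lt_of_not_dvd hN hd hn,
    fun h6 _ hodd => run_lt_of_odd hN h6 hodd hn⟩⟩
  by_cases h5 : 5 ∣ k
  swap
  · have h1 := run_lt_of_not_dvd (k := k) (N := 2 ^ 4) (by norm_num) (by rwa [h16']) hn
    rw [hp16] at h1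
    omega
  by_cases h7 : 7 ∣ k
  swap
  · have h1 := run_lt_of_not_dvd (k := k) (N := 2 ^ 6) (by norm_num) (by rwa [h64']) hn
    rw [hp64] at h1
    omega
  by_cases h9 : 9 ∣ k
  swap
  · have h1 := run_lt_of_not_dvd (k := k) (N := 36) (by norm_num) (by rwa [h36]) hn
    rw [hp36] at h1
    omega
  by_cases h8 : 8 ∣ k
  swap
  · have h1 := run_lt_of_not_dvd (k := k) (N := 24) (by norm_num) (by rwa [h24]) hn
    rw [hp24] at h1
    omega
  have h16 : ¬ 16 ∣ k := fun h16 => hk5040 (by omega)
  have h1 := run_lt_of_odd (k := k) (N := 24) (n := n) (L := M) (by norm_num) (by norm_num)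
    (by
      rw [h24]
      obtain ⟨j, rfl⟩ := h8
      rw [Nat.mul_div_cancel_left j (by norm_num)]
      rw [← Nat.not_even_iff_odd]
      rintro ⟨i, rfl⟩
      exact h16 ⟨i, by ring⟩) hn
  rw [hp24] at h1
  omega

end Pool.Agent.Results.MP_685530_nt.NonDivisors
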