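import Pool.Agent.Lib.P685530.Max

/-!
# `M(k) ≤ 3` if `k ≡ 2 (mod 4)` and the odd primes dividing `k` are `1 (mod 4)`, or `1 (mod 3)`

`M(k)` is the largest number of consecutive positive integers all with exactly `k` divisors.
Under the hypothesis an integer with `k` divisors is a prime times a fourth power (a sixth power),
and the equations `2 c ^ 4 - 2 = p w ^ 4` and `2 c ^ 6 - 2 = p w ^ 6` have no solution with `p` a
prime and `c > 1` (descent of Fermat, Fermat's last theorem for the exponent `3`).
-/

set_option autoImplicit false

namespace Pool.Agent.Results.MP_685530_nt.OddPrimesOne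

open Pool.Agent.Lib.P685530

/-- The largest length `M` of a run of consecutive integers with exactly `k` divisors exists and is
at most `3` if `k ≡ 2 (mod 4)` and either all odd primes dividing `k` are `1 (mod 4)` or all are
`1 (mod 3)`. -/
theorem result (k : ℕ) (hk : k % 4 = 2)
    (h : (∀ p, p.Prime → p ∣ k → p ≠ 2 → p % 4 = 1) ∨
      (∀ p, p.Prime → p ∣ k → p ≠ 2 → p % 3 = 1)) :
    ∃ M, IsGreatest {L | ∃ n, Run k n L} M ∧ M ≤ 3 := by
  refine exists_max fun n L hr => ?_
  rcases h with h | h
  · exact run_le_three (Or.inl rfl) hk h hr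
  · exact run_le_three (Or.inr rfl) hk h hr

end Pool.Agent.Results.MP_685530_nt.OddPrimesOne
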