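import Pool.Agent.Lib.P685530.Max

/-!
# `M(k) ≤ 5` for `k ≡ 2 (mod 4)`, and `M(k) ≤ 4` if moreover `3 ∤ k`

`M(k)` is the largest number of consecutive positive integers all with exactly `k` divisors.
The known general bound is `2 ^ p - 1`, where `p` is the least prime not dividing `k`: it is `7`
if `3 ∤ k` and at least `31` if `3 ∣ k`.

An integer whose number of divisors is `2 (mod 4)` is a prime times a square, and twice a square
if it is `2 (mod 4)`.  So two elements of a run that are `2 (mod 4)` never differ by `4`.  If
`2 a² - 2 = (prime) · (square)` then `3 ∣ a`, by the descent for the equation `T² = 24 y² + 1`.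
-/

set_option autoImplicit false

namespace Pool.Agent.Results.MP_685530_nt.TwoModFour

open Pool.Agent.Lib.P685530

/-- The largest length `M` of a run of consecutive integers with exactly `k` divisors exists and is
at most `5` if `k ≡ 2 (mod 4)`; it is at most `4` if moreover `3` does not divide `k`. -/
theorem result (k : ℕ) (hk : k % 4 = 2) :
    ∃ M, IsGreatest {L | ∃ n, Run k n L} M ∧ M ≤ 5 ∧ (¬ 3 ∣ k → M ≤ 4) := by
  obtain ⟨M, hM, hM5⟩ := exists_max (k := k) (B := 5) fun n L h => run_le_five hk h
  refine ⟨M, hM, hM5, fun h3 => ?_⟩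
  obtain ⟨n, hn⟩ := hM.1
  exact run_le_four hk h3 hn

end Pool.Agent.Results.MP_685530_nt.TwoModFour
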